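import Mathlib
import Pool.Agent.V11171.Rich
import Pool.Agent.V11171.Sturm

/-!
MP_fa9958_co, Q1: the abelian closure of a uniformly recurrent aperiodic non-Sturmian binary word
with irrational uniform letter frequency contains uncountably many minimal subshifts.
-/

set_option autoImplicit false

namespace Pool.Agent.Results.MP_fa9958_co.Uncountable

open Pool.Agent.V11171.Rich Pool.Agent.V11171.Sturm Filter Topology

/-- number of ones of a finite binary word -/
def ones (v : List (Fin 2)) : ℕ := v.count 1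

/-- abelian equivalence of binary words -/
def AbEq (u v : List (Fin 2)) : Prop := u.length = v.length ∧ ones u = ones v

/-- the abelian closure -/
def abClosure (x : ℕ → Fin 2) : Set (ℕ → Fin 2) :=
  {y | ∀ i n : ℕ, ∃ j m : ℕ, AbEq (factor y i n) (factor x j m)}

/-- the set of factors of length `n` -/
def factors {A : Type} (x : ℕ → A) (n : ℕ) : Set (List A) := {v | ∃ i, v = factor x i n}

def UniformlyRecurrent {A : Type} (x : ℕ → A) : Prop :=
  ∀ i n : ℕ, ∃ G : ℕ, ∀ N : ℕ, ∃ j, N ≤ j ∧ j ≤ N + G ∧ factor x j n = factor x i n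

def EventuallyPeriodic {A : Type} (x : ℕ → A) : Prop :=
  ∃ p > 0, ∃ N : ℕ, ∀ m ≥ N, x (m + p) = x m

def Sturmian (x : ℕ → Fin 2) : Prop :=
  ¬ EventuallyPeriodic x ∧ ∀ n : ℕ, (factors x n).ncard = n + 1

/-- `x` has uniform frequency `α` of the letter `1` -/
def UniformFreq (x : ℕ → Fin 2) (α : ℝ) : Prop :=
  ∀ ε > 0, ∃ N : ℕ, ∀ n ≥ N, ∀ i : ℕ, |((ones (factor x i n) : ℕ) : ℝ) / n - α| < ε

def shift (x : ℕ → Fin 2) : ℕ → Fin 2 := fun n => x (n + 1)

/-- a minimal subshift (product topology) -/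
def IsMinimalSubshift (M : Set (ℕ → Fin 2)) : Prop :=
  M.Nonempty ∧ IsClosed M ∧ (∀ z ∈ M, shift z ∈ M) ∧
    ∀ N ⊆ M, N.Nonempty → IsClosed N → (∀ z ∈ N, shift z ∈ N) → N = M

/-! ### Basics -/

theorem factor_congr {A : Type} (u v : ℕ → A) (i i' n : ℕ) :
    factor u i n = factor v i' n ↔ ∀ j < n, u (i + j) = v (i' + j) := by
  simp only [factor, List.map_inj_left, List.mem_range]

theorem factor_length {A : Type} (u : ℕ → A) (i n : ℕ) : (factor u i n).length = n := by
  simp [factor]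

/-- prefix sums -/
def S (z : ℕ → Fin 2) (n : ℕ) : ℤ := ∑ k ∈ Finset.range n, ((z k).val : ℤ)

theorem S_step (z : ℕ → Fin 2) (n : ℕ) : S z (n + 1) = S z n + (z n).val := by
  unfold S
  rw [Finset.sum_range_succ]

theorem S_zero (z : ℕ → Fin 2) : S z 0 = 0 := by simp [S]

theorem ones_factor (z : ℕ → Fin 2) (i n : ℕ) : (ones (factor z i n) : ℤ) = S z (i + n) - S z i := by
  induction n with
  | zero => simp [ones, factor]
  | succ n ih =>
    have h1 : factor z i (n + 1) = factor z i n ++ [z (i + n)] := by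
      simp [factor, List.range_succ]
    have h2 : S z (i + (n + 1)) = S z (i + n) + (z (i + n)).val := by
      rw [← add_assoc, S_step]
    rw [h1, h2]
    unfold ones at ih ⊢
    rw [List.count_append]
    push_cast
    rw [ih]
    have h3 : (List.count 1 [z (i + n)] : ℤ) = ((z (i + n)).val : ℤ) := by
      generalize z (i + n) = a
      fin_cases a <;> simp
    rw [h3]
    ring

/-- the word with prefix sums `F` -/
def wd (F : ℕ → ℤ) : ℕ → Fin 2 := fun n => if F (n + 1) = F n then 0 else 1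

def Steps (F : ℕ → ℤ) : Prop := ∀ n, F (n + 1) = F n ∨ F (n + 1) = F n + 1

theorem S_wd (F : ℕ → ℤ) (h : Steps F) (n : ℕ) : S (wd F) n = F n - F 0 := by
  induction n with
  | zero => simp [S]
  | succ n ih =>
    rw [S_step, ih]
    unfold wd
    rcases h n with h1 | h1
    · rw [if_pos h1, h1]; simp
    · rw [if_neg (by omega), h1]; simp; ring

theorem ivt_up (f : ℕ → ℤ) (hf : ∀ k, f (k + 1) ≤ f k + 1) (w : ℤ) (d : ℕ) :
    ∀ a, f a ≤ w → w ≤ f (a + d) → ∃ k, f k = w := by
  induction d with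
  | zero => intro a h1 h2; exact ⟨a, le_antisymm h1 h2⟩
  | succ d ih =>
    intro a h1 h2
    rcases eq_or_lt_of_le h1 with h | h
    · exact ⟨a, h⟩
    · apply ih (a + 1)
      · have := hf a; omega
      · have e : a + 1 + d = a + (d + 1) := by ring
        rw [e]; exact h2

theorem ivt_down (f : ℕ → ℤ) (hf : ∀ k, f k - 1 ≤ f (k + 1)) (w : ℤ) (d : ℕ) :
    ∀ a, w ≤ f a → f (a + d) ≤ w → ∃ k, f k = w := by
  induction d with
  | zero => intro a h1 h2; exact ⟨a, le_antisymm h2 h1⟩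
  | succ d ih =>
    intro a h1 h2
    rcases eq_or_lt_of_le h1 with h | h
    · exact ⟨a, h.symm⟩
    · apply ih (a + 1)
      · have := hf a; omega
      · have e : a + 1 + d = a + (d + 1) := by ring
        rw [e]; exact h2

theorem ivt (x : ℕ → Fin 2) (n : ℕ) (w : ℤ) (i j : ℕ) (hi : S x (i + n) - S x i ≤ w)
    (hj : w ≤ S x (j + n) - S x j) : ∃ k, S x (k + n) - S x k = w := by
  have hs : ∀ k, |(S x (k + 1 + n) - S x (k + 1)) - (S x (k + n) - S x k)| ≤ 1 := by
    intro k
    have e : k + 1 + n = k + n + 1 := by ring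
    rw [e, S_step, S_step]
    have h1 := (x k).isLt
    have h2 := (x (k + n)).isLt
    rw [abs_le]
    constructor <;> omega
  rcases le_total i j with h | h
  · obtain ⟨d, rfl⟩ := Nat.exists_eq_add_of_le h
    exact ivt_up (fun k => S x (k + n) - S x k)
      (fun k => by have := abs_le.1 (hs k); linarith [this.2]) w d i hi hj
  · obtain ⟨d, rfl⟩ := Nat.exists_eq_add_of_le h
    exact ivt_down (fun k => S x (k + n) - S x k)
      (fun k => by have := abs_le.1 (hs k); linarith [this.1]) w d j hj hi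

/-- every window increment of `F` is the weight of a window of `x` -/
def Good (x : ℕ → Fin 2) (F : ℕ → ℤ) : Prop :=
  ∀ i n : ℕ, ∃ j, S x (j + n) - S x j = F (i + n) - F i

theorem Good.steps {x : ℕ → Fin 2} {F : ℕ → ℤ} (h : Good x F) : Steps F := by
  intro n
  obtain ⟨j, hj⟩ := h n 1
  rw [S_step] at hj
  have := (x j).isLt
  omega

theorem Good.mem {x : ℕ → Fin 2} {F : ℕ → ℤ} (h : Good x F) : wd F ∈ abClosure x := by
  intro i n
  obtain ⟨j, hj⟩ := h i n
  refine ⟨j, n, by simp [factor_length], ?_⟩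
  have h1 := ones_factor (wd F) i n
  have h2 := ones_factor x j n
  rw [S_wd F h.steps, S_wd F h.steps] at h1
  omega

theorem exists_ge {x : ℕ → Fin 2} {α : ℝ} (hx : UniformFreq x α) (n : ℕ) :
    ∃ i, (α * n : ℝ) ≤ ((S x (i + n) - S x i : ℤ) : ℝ) := by
  rcases Nat.eq_zero_or_pos n with rfl | hn
  · exact ⟨0, by simp⟩
  by_contra hcon
  push Not at hcon
  -- all windows have weight at most `c < α n`
  set c : ℤ := ⌈α * n⌉ - 1 with hc
  have hc1 : (c : ℝ) < α * n := by
    rw [hc]; push_cast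
    have := Int.ceil_lt_add_one (α * (n : ℝ))
    linarith
  have hw : ∀ i, S x (i + n) - S x i ≤ c := by
    intro i
    have h1 := hcon i
    have h2 : S x (i + n) - S x i < ⌈α * (n : ℝ)⌉ := Int.lt_ceil.2 h1
    omega
  have hsum : ∀ k : ℕ, S x (k * n) ≤ k * c := by
    intro k
    induction k with
    | zero => simp [S_zero]
    | succ k ih =>
      have := hw (k * n)
      have e : (k + 1) * n = k * n + n := by ring
      rw [e]
      push_cast
      linarith
  have hnR : (0 : ℝ) < n := by exact_mod_cast hn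
  obtain ⟨N, hN⟩ := hx ((α * n - c) / n) (by apply div_pos _ hnR; linarith)
  have h1 := hN ((N + 1) * n) (by nlinarith) 0
  have h2 : (ones (factor x 0 ((N + 1) * n)) : ℤ) = S x ((N + 1) * n) := by
    rw [ones_factor, S_zero]; simp
  have h3 : ((ones (factor x 0 ((N + 1) * n)) : ℕ) : ℝ) = ((S x ((N + 1) * n) : ℤ) : ℝ) := by
    rw [← h2]; simp
  rw [h3] at h1
  have h4 : ((S x ((N + 1) * n) : ℤ) : ℝ) ≤ ((N + 1 : ℕ) : ℝ) * c := by
    exact_mod_cast hsum (N + 1)
  have h5 := (abs_lt.1 h1).1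
  have hM : (0 : ℝ) < ((N + 1 : ℕ) : ℝ) := by positivity
  have h6 : ((S x ((N + 1) * n) : ℤ) : ℝ) / (((N + 1) * n : ℕ) : ℝ) ≤ c / n := by
    rw [div_le_div_iff₀ (by push_cast; positivity) hnR]
    push_cast at h4 ⊢
    nlinarith
  have h7 : (α * n - c) / n = α - c / n := by field_simp
  rw [h7] at h5
  linarith

theorem exists_le {x : ℕ → Fin 2} {α : ℝ} (hx : UniformFreq x α) (n : ℕ) :
    ∃ i, ((S x (i + n) - S x i : ℤ) : ℝ) ≤ (α * n : ℝ) := by
  rcases Nat.eq_zero_or_pos n with rfl | hn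
  · exact ⟨0, by simp⟩
  by_contra hcon
  push Not at hcon
  set c : ℤ := ⌊α * n⌋ + 1 with hc
  have hc1 : α * n < (c : ℝ) := by
    rw [hc]; push_cast
    exact Int.lt_floor_add_one (α * (n : ℝ))
  have hw : ∀ i, c ≤ S x (i + n) - S x i := by
    intro i
    have h1 := hcon i
    have h2 : ⌊α * (n : ℝ)⌋ < S x (i + n) - S x i := Int.floor_lt.2 h1
    omega
  have hsum : ∀ k : ℕ, k * c ≤ S x (k * n) := by
    intro k
    induction k with
    | zero => simp [S_zero]
    | succ k ih =>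
      have := hw (k * n)
      have e : (k + 1) * n = k * n + n := by ring
      rw [e]
      push_cast
      linarith
  have hnR : (0 : ℝ) < n := by exact_mod_cast hn
  obtain ⟨N, hN⟩ := hx ((c - α * n) / n) (by apply div_pos _ hnR; linarith)
  have h1 := hN ((N + 1) * n) (by nlinarith) 0
  have h2 : (ones (factor x 0 ((N + 1) * n)) : ℤ) = S x ((N + 1) * n) := by
    rw [ones_factor, S_zero]; simp
  have h3 : ((ones (factor x 0 ((N + 1) * n)) : ℕ) : ℝ) = ((S x ((N + 1) * n) : ℤ) : ℝ) := by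
    rw [← h2]; simp
  rw [h3] at h1
  have h4 : ((N + 1 : ℕ) : ℝ) * c ≤ ((S x ((N + 1) * n) : ℤ) : ℝ) := by
    exact_mod_cast hsum (N + 1)
  have h5 := (abs_lt.1 h1).2
  have hM : (0 : ℝ) < ((N + 1 : ℕ) : ℝ) := by positivity
  have h6 : c / n ≤ ((S x ((N + 1) * n) : ℤ) : ℝ) / (((N + 1) * n : ℕ) : ℝ) := by
    rw [div_le_div_iff₀ hnR (by push_cast; positivity)]
    push_cast at h4 ⊢
    nlinarith
  have h7 : (c - α * n) / n = c / n - α := by field_simp
  rw [h7] at h5
  linarith

/-! ### Orbit closures and minimal subshifts -/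

def orbitClosure (z : ℕ → Fin 2) : Set (ℕ → Fin 2) :=
  closure {y | ∃ N : ℕ, y = fun n => z (N + n)}

theorem orbit_prefix {z y : ℕ → Fin 2} (hy : y ∈ orbitClosure z) (L : ℕ) :
    ∃ N, ∀ n < L, y n = z (N + n) := by
  unfold orbitClosure at hy
  rw [mem_closure_iff] at hy
  obtain ⟨v, hv1, N, hv2⟩ := hy {v | ∀ n ∈ Finset.range L, v n = y n} (by
    have : {v : ℕ → Fin 2 | ∀ n ∈ Finset.range L, v n = y n} =
        ⋂ n ∈ Finset.range L, {v | v n = y n} := by
      ext v; simp
    rw [this]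
    apply isOpen_biInter_finset
    intro n _
    have hc : Continuous (fun v : ℕ → Fin 2 => v n) := continuous_apply n
    exact hc.isOpen_preimage {y n} (isOpen_discrete _)) (by intro n _; rfl)
  refine ⟨N, fun n hn => ?_⟩
  rw [← hv1 n (Finset.mem_range.2 hn), hv2]

theorem shift_continuous : Continuous shift := by
  unfold shift
  exact continuous_pi fun n => continuous_apply (n + 1)

theorem orbitClosure_shift {z y : ℕ → Fin 2} (hy : y ∈ orbitClosure z) :
    shift y ∈ orbitClosure z := by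
  unfold orbitClosure at hy ⊢
  apply map_mem_closure shift_continuous hy
  rintro v ⟨N, rfl⟩
  refine ⟨N + 1, ?_⟩
  funext n
  unfold shift
  simp only
  congr 1
  ring

theorem orbitClosure_sub {x z : ℕ → Fin 2} (hz : z ∈ abClosure x) :
    orbitClosure z ⊆ abClosure x := by
  intro y hy i n
  obtain ⟨N, hN⟩ := orbit_prefix hy (i + n)
  obtain ⟨j, m, h⟩ := hz (N + i) n
  have e : factor y i n = factor z (N + i) n := by
    rw [factor_congr]
    intro k hk
    rw [hN _ (by omega)]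
    congr 1
    ring
  rw [e]
  exact ⟨j, m, h⟩

theorem exists_minimal (X : Set (ℕ → Fin 2)) (hne : X.Nonempty) (hcl : IsClosed X)
    (hsh : ∀ z ∈ X, shift z ∈ X) : ∃ M ⊆ X, IsMinimalSubshift M := by
  obtain ⟨M, hMX, hM⟩ := zorn_superset_nonempty
    {N : Set (ℕ → Fin 2) | N.Nonempty ∧ IsClosed N ∧ (∀ z ∈ N, shift z ∈ N) ∧ N ⊆ X} (by
      intro c hc hchain hcne
      refine ⟨⋂₀ c, ⟨?_, ?_, ?_, ?_⟩, fun s hs => Set.sInter_subset_of_mem hs⟩
      · have hdir : DirectedOn (· ⊇ ·) c := by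
          intro a ha b hb
          rcases hchain.total ha hb with h | h
          · exact ⟨a, ha, subset_rfl, h⟩
          · exact ⟨b, hb, h, subset_rfl⟩
        have : Nonempty c := hcne.to_subtype
        have := IsCompact.nonempty_sInter_of_directed_nonempty_isCompact_isClosed (S := c)
          hdir (fun s hs => (hc hs).1) (fun s hs => (hc hs).2.1.isCompact)
          (fun s hs => (hc hs).2.1)
        exact this
      · exact isClosed_sInter fun s hs => (hc hs).2.1
      · intro z hz s hs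
        exact (hc hs).2.2.1 z (hz s hs)
      · obtain ⟨s, hs⟩ := hcne
        exact (Set.sInter_subset_of_mem hs).trans (hc hs).2.2.2) X ⟨hne, hcl, hsh, subset_rfl⟩
  refine ⟨M, hMX, hM.prop.1, hM.prop.2.1, hM.prop.2.2.1, ?_⟩
  intro N hN h1 h2 h3
  exact le_antisymm hN (hM.le_of_le ⟨h1, h2, h3, hN.trans hM.prop.2.2.2⟩ hN)

/-- For good `F` there is a minimal subshift inside the orbit closure of `wd F`. -/
theorem exists_min_good {x : ℕ → Fin 2} {F : ℕ → ℤ} (h : Good x F) :
    ∃ M : Set (ℕ → Fin 2), IsMinimalSubshift M ∧ M ⊆ abClosure x ∧ M ⊆ orbitClosure (wd F) := by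
  obtain ⟨M, h1, h2⟩ := exists_minimal (orbitClosure (wd F))
    ⟨wd F, subset_closure ⟨0, by simp⟩⟩ isClosed_closure (fun z hz => orbitClosure_shift hz)
  exact ⟨M, h2, h1.trans (orbitClosure_sub h.mem), h1⟩

theorem S_of_prefix {F : ℕ → ℤ} (h : Steps F) {y : ℕ → Fin 2} {N L : ℕ}
    (hN : ∀ n < L, y n = wd F (N + n)) (i n : ℕ) (hL : i + n ≤ L) :
    S y (i + n) - S y i = F (N + i + n) - F (N + i) := by
  have h1 := ones_factor y i n
  have h2 := ones_factor (wd F) (N + i) n
  have e : factor y i n = factor (wd F) (N + i) n := by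
    rw [factor_congr]
    intro k hk
    rw [hN _ (by omega)]
    congr 1
    ring
  rw [e, h2, S_wd F h, S_wd F h] at h1
  linarith

theorem window_of_orbit {F : ℕ → ℤ} (h : Steps F) {y : ℕ → Fin 2}
    (hy : y ∈ orbitClosure (wd F)) (i n : ℕ) :
    ∃ N, S y (i + n) - S y i = F (N + n) - F N := by
  obtain ⟨N, hN⟩ := orbit_prefix hy (i + n)
  exact ⟨N + i, S_of_prefix h hN i n le_rfl⟩

theorem gap_lemma {x : ℕ → Fin 2} (hx : UniformlyRecurrent x) {F : ℕ → ℤ} (h : Steps F)
    (a L p q : ℕ) (Q : ℤ → Prop)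
    (hQ : ∀ r, factor x r L = factor x a L → Q (F (r + p + q) - F (r + p)))
    {y : ℕ → Fin 2} (hy : y ∈ orbitClosure (wd F)) : ∃ s, Q (S y (s + q) - S y s) := by
  obtain ⟨G, hG⟩ := hx a L
  obtain ⟨N, hN⟩ := orbit_prefix hy (G + p + q)
  obtain ⟨r, hr1, hr2, hr3⟩ := hG N
  refine ⟨r - N + p, ?_⟩
  have h1 := S_of_prefix h hN (r - N + p) q (by omega)
  rw [h1]
  have e : N + (r - N + p) = r + p := by omega
  rw [e]
  exact hQ r hr3

/-! ### Unbounded discrepancy -/

noncomputable def Ft (x : ℕ → Fin 2) (α t : ℝ) (k : ℕ) : ℤ := ⌊(1 - t) * (α * k) + t * S x k⌋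

theorem Ft_window (x : ℕ → Fin 2) (α t : ℝ) (i n : ℕ) :
    (1 - t) * (α * n) + t * ((S x (i + n) - S x i : ℤ) : ℝ) - 1 <
      ((Ft x α t (i + n) - Ft x α t i : ℤ) : ℝ) ∧
    ((Ft x α t (i + n) - Ft x α t i : ℤ) : ℝ) <
      (1 - t) * (α * n) + t * ((S x (i + n) - S x i : ℤ) : ℝ) + 1 := by
  unfold Ft
  have a1 := Int.floor_le ((1 - t) * (α * (i + n : ℕ)) + t * S x (i + n))
  have a2 := Int.lt_floor_add_one ((1 - t) * (α * (i + n : ℕ)) + t * S x (i + n))
  have a3 := Int.floor_le ((1 - t) * (α * i) + t * S x i)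
  have a4 := Int.lt_floor_add_one ((1 - t) * (α * i) + t * S x i)
  push_cast at a1 a2 ⊢
  constructor <;> nlinarith

theorem Ft_good {x : ℕ → Fin 2} {α : ℝ} (hx : UniformFreq x α) {t : ℝ} (h0 : 0 ≤ t) (h1 : t ≤ 1) :
    Good x (Ft x α t) := by
  intro i n
  obtain ⟨w1, w2⟩ := Ft_window x α t i n
  obtain ⟨j1, hj1⟩ := exists_ge hx n
  obtain ⟨j2, hj2⟩ := exists_le hx n
  set w := Ft x α t (i + n) - Ft x α t i with hw
  have hup : ∃ j, w ≤ S x (j + n) - S x j := by
    rcases le_total (S x (i + n) - S x i) (S x (j1 + n) - S x j1) with h | h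
    · refine ⟨j1, ?_⟩
      have h' : ((S x (i + n) - S x i : ℤ) : ℝ) ≤ ((S x (j1 + n) - S x j1 : ℤ) : ℝ) := by
        exact_mod_cast h
      have : (w : ℝ) < ((S x (j1 + n) - S x j1 : ℤ) : ℝ) + 1 := by nlinarith
      have : w < (S x (j1 + n) - S x j1) + 1 := by exact_mod_cast this
      omega
    · refine ⟨i, ?_⟩
      have h' : ((S x (j1 + n) - S x j1 : ℤ) : ℝ) ≤ ((S x (i + n) - S x i : ℤ) : ℝ) := by
        exact_mod_cast h
      have : (w : ℝ) < ((S x (i + n) - S x i : ℤ) : ℝ) + 1 := by nlinarith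
      have : w < (S x (i + n) - S x i) + 1 := by exact_mod_cast this
      omega
  have hdn : ∃ j, S x (j + n) - S x j ≤ w := by
    rcases le_total (S x (i + n) - S x i) (S x (j2 + n) - S x j2) with h | h
    · refine ⟨i, ?_⟩
      have h' : ((S x (i + n) - S x i : ℤ) : ℝ) ≤ ((S x (j2 + n) - S x j2 : ℤ) : ℝ) := by
        exact_mod_cast h
      have : ((S x (i + n) - S x i : ℤ) : ℝ) - 1 < (w : ℝ) := by nlinarith
      have : (S x (i + n) - S x i) - 1 < w := by exact_mod_cast this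
      omega
    · refine ⟨j2, ?_⟩
      have h' : ((S x (j2 + n) - S x j2 : ℤ) : ℝ) ≤ ((S x (i + n) - S x i : ℤ) : ℝ) := by
        exact_mod_cast h
      have : ((S x (j2 + n) - S x j2 : ℤ) : ℝ) - 1 < (w : ℝ) := by nlinarith
      have : (S x (j2 + n) - S x j2) - 1 < w := by exact_mod_cast this
      omega
  obtain ⟨ja, hja⟩ := hdn
  obtain ⟨jb, hjb⟩ := hup
  exact ivt x n w ja jb hja hjb

theorem S_window_bound (x : ℕ → Fin 2) (i n : ℕ) :
    0 ≤ S x (i + n) - S x i ∧ S x (i + n) - S x i ≤ n := by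
  induction n with
  | zero => simp
  | succ n ih =>
    have := (x (i + n)).isLt
    rw [← add_assoc, S_step]
    push_cast
    omega

theorem exists_max_window (x : ℕ → Fin 2) (n : ℕ) :
    ∃ i, ∀ j, S x (j + n) - S x j ≤ S x (i + n) - S x i := by
  obtain ⟨ub, ⟨i, hi⟩, hub⟩ := Int.exists_greatest_of_bdd
    (P := fun w => ∃ i, S x (i + n) - S x i = w)
    ⟨n, by rintro z ⟨i, rfl⟩; exact (S_window_bound x i n).2⟩ ⟨_, 0, rfl⟩
  exact ⟨i, fun j => by rw [hi]; exact hub _ ⟨j, rfl⟩⟩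

theorem exists_min_window (x : ℕ → Fin 2) (n : ℕ) :
    ∃ i, ∀ j, S x (i + n) - S x i ≤ S x (j + n) - S x j := by
  obtain ⟨lb, ⟨i, hi⟩, hlb⟩ := Int.exists_least_of_bdd
    (P := fun w => ∃ i, S x (i + n) - S x i = w)
    ⟨0, by rintro z ⟨i, rfl⟩; exact (S_window_bound x i n).1⟩ ⟨_, 0, rfl⟩
  exact ⟨i, fun j => by rw [hi]; exact hlb _ ⟨j, rfl⟩⟩

theorem unbounded_case {x : ℕ → Fin 2} {α : ℝ} (hx : UniformFreq x α)
    (hrec : UniformlyRecurrent x)
    (hunb : (∀ C : ℝ, ∃ i n : ℕ, C < ((S x (i + n) - S x i : ℤ) : ℝ) - α * n) ∨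
      (∀ C : ℝ, ∃ i n : ℕ, ((S x (i + n) - S x i : ℤ) : ℝ) - α * n < -C)) :
    ¬ {M | IsMinimalSubshift M ∧ M ⊆ abClosure x}.Countable := by
  intro hcount
  have hch : ∀ t : ℝ, ∃ M : Set (ℕ → Fin 2), t ∈ Set.Ioo (0 : ℝ) 1 →
      (IsMinimalSubshift M ∧ M ⊆ abClosure x ∧ M ⊆ orbitClosure (wd (Ft x α t))) := by
    intro t
    by_cases ht : t ∈ Set.Ioo (0 : ℝ) 1
    · obtain ⟨M, hM⟩ := exists_min_good (Ft_good hx ht.1.le ht.2.le)
      exact ⟨M, fun _ => hM⟩
    · exact ⟨∅, fun h => absurd h ht⟩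
  choose Z hZ using hch
  have hne : ∀ t ∈ Set.Ioo (0 : ℝ) 1, ∀ t' ∈ Set.Ioo (0 : ℝ) 1, t < t' → Z t ≠ Z t' := by
    intro t ht t' ht' hlt heq
    obtain ⟨y, hy⟩ := (hZ t ht).1.1
    have hy1 := (hZ t ht).2.2 hy
    have hy2 := (hZ t' ht').2.2 (heq ▸ hy)
    have st := (Ft_good hx ht.1.le ht.2.le).steps
    have st' := (Ft_good hx ht'.1.le ht'.2.le).steps
    rcases hunb with hunb | hunb
    · obtain ⟨i0, n, hi0⟩ := hunb (2 / (t' - t))
      obtain ⟨i, hi⟩ := exists_max_window x n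
      set E : ℝ := ((S x (i + n) - S x i : ℤ) : ℝ) - α * n with hE
      have hE1 : 2 / (t' - t) < E := by
        have : ((S x (i0 + n) - S x i0 : ℤ) : ℝ) ≤ ((S x (i + n) - S x i : ℤ) : ℝ) := by
          exact_mod_cast hi i0
        linarith
      rw [div_lt_iff₀ (by linarith)] at hE1
      obtain ⟨s, hs⟩ := gap_lemma hrec st' i n 0 n (fun w => α * n + t' * E - 1 < (w : ℝ)) (by
        intro r hr
        have h1 := (Ft_window x α t' r n).1
        have h2 : S x (r + n) - S x r = S x (i + n) - S x i := by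
          rw [← ones_factor, ← ones_factor, hr]
        rw [h2] at h1
        simp only [add_zero]
        rw [hE]
        linarith) hy2
      obtain ⟨N, hN⟩ := window_of_orbit st hy1 s n
      rw [hN] at hs
      have h3 := (Ft_window x α t N n).2
      have h4 : ((S x (N + n) - S x N : ℤ) : ℝ) ≤ ((S x (i + n) - S x i : ℤ) : ℝ) := by
        exact_mod_cast hi N
      have h5 := ht.1
      have h6 : t * ((S x (N + n) - S x N : ℤ) : ℝ) ≤ t * (E + α * n) := by
        apply mul_le_mul_of_nonneg_left _ h5.le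
        linarith
      nlinarith
    · obtain ⟨i0, n, hi0⟩ := hunb (2 / (t' - t))
      obtain ⟨i, hi⟩ := exists_min_window x n
      set E : ℝ := ((S x (i + n) - S x i : ℤ) : ℝ) - α * n with hE
      have hE1 : E < -(2 / (t' - t)) := by
        have : ((S x (i + n) - S x i : ℤ) : ℝ) ≤ ((S x (i0 + n) - S x i0 : ℤ) : ℝ) := by
          exact_mod_cast hi i0
        linarith
      have hE2 : 2 / (t' - t) < -E := by linarith
      rw [div_lt_iff₀ (by linarith)] at hE2
      obtain ⟨s, hs⟩ := gap_lemma hrec st' i n 0 n (fun w => (w : ℝ) < α * n + t' * E + 1) (by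
        intro r hr
        have h1 := (Ft_window x α t' r n).2
        have h2 : S x (r + n) - S x r = S x (i + n) - S x i := by
          rw [← ones_factor, ← ones_factor, hr]
        rw [h2] at h1
        simp only [add_zero]
        rw [hE]
        linarith) hy2
      obtain ⟨N, hN⟩ := window_of_orbit st hy1 s n
      rw [hN] at hs
      have h3 := (Ft_window x α t N n).1
      have h4 : ((S x (i + n) - S x i : ℤ) : ℝ) ≤ ((S x (N + n) - S x N : ℤ) : ℝ) := by
        exact_mod_cast hi N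
      have h5 := ht.1
      have h6 : t * (E + α * n) ≤ t * ((S x (N + n) - S x N : ℤ) : ℝ) := by
        apply mul_le_mul_of_nonneg_left _ h5.le
        linarith
      nlinarith
  have hinj : Set.InjOn Z (Set.Ioo (0 : ℝ) 1) := by
    intro t ht t' ht' heq
    by_contra hcon
    rcases lt_or_gt_of_ne hcon with h | h
    · exact hne t ht t' ht' h heq
    · exact hne t' ht' t ht h heq.symm
  have hcount2 : (Set.Ioo (0 : ℝ) 1).Countable := by
    apply Set.countable_of_injective_of_countable_image hinj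
    apply hcount.mono
    rintro _ ⟨t, ht, rfl⟩
    exact ⟨(hZ t ht).1, (hZ t ht).2.1⟩
  rw [Cardinal.Real.Ioo_countable_iff] at hcount2
  linarith

/-! ### Bounded discrepancy -/

noncomputable def D (x : ℕ → Fin 2) (α : ℝ) (k : ℕ) : ℝ := S x k - α * k

noncomputable def Fc (x : ℕ → Fin 2) (α c : ℝ) (k : ℕ) : ℤ := S x k - if c < D x α k then 1 else 0

theorem Fc_good {x : ℕ → Fin 2} {α : ℝ} (hx : UniformFreq x α) (c : ℝ) : Good x (Fc x α c) := by
  intro i n
  obtain ⟨j1, hj1⟩ := exists_ge hx n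
  obtain ⟨j2, hj2⟩ := exists_le hx n
  unfold Fc
  by_cases h1 : c < D x α i
  · by_cases h2 : c < D x α (i + n)
    · rw [if_pos h1, if_pos h2]
      exact ⟨i, by ring⟩
    · rw [if_pos h1, if_neg h2]
      push Not at h2
      have h3 : ((S x (i + n) - S x i : ℤ) : ℝ) < α * n := by
        unfold D at h1 h2
        push_cast at h1 h2 ⊢
        linarith
      have h4 : ((S x (i + n) - S x i : ℤ) : ℝ) < ((S x (j1 + n) - S x j1 : ℤ) : ℝ) := by linarith
      have h5 : S x (i + n) - S x i < S x (j1 + n) - S x j1 := by exact_mod_cast h4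
      exact ivt x n _ i j1 (by omega) (by omega)
  · by_cases h2 : c < D x α (i + n)
    · rw [if_neg h1, if_pos h2]
      push Not at h1
      have h3 : α * n < ((S x (i + n) - S x i : ℤ) : ℝ) := by
        unfold D at h1 h2
        push_cast at h1 h2 ⊢
        linarith
      have h4 : ((S x (j2 + n) - S x j2 : ℤ) : ℝ) < ((S x (i + n) - S x i : ℤ) : ℝ) := by linarith
      have h5 : S x (j2 + n) - S x j2 < S x (i + n) - S x i := by exact_mod_cast h4
      exact ivt x n _ j2 i (by omega) (by omega)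
    · rw [if_neg h1, if_neg h2]
      exact ⟨i, by ring⟩

theorem D_add {x : ℕ → Fin 2} {α : ℝ} {r L k : ℕ} (h : factor x r L = factor x 0 L) (hk : k ≤ L) :
    D x α (r + k) = D x α r + D x α k := by
  have e : factor x r k = factor x 0 k := by
    rw [factor_congr] at h ⊢
    intro j hj
    exact h j (by omega)
  have h1 := ones_factor x r k
  have h2 := ones_factor x 0 k
  rw [e, h2, S_zero, zero_add] at h1
  unfold D
  have h3 : (S x (r + k) : ℝ) = S x r + S x k := by
    have : S x (r + k) = S x r + S x k := by omega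
    rw [this]; push_cast; ring
  rw [h3]
  push_cast
  ring

theorem near {x : ℕ → Fin 2} {α A B : ℝ} (hA : ∀ k, A ≤ D x α k) (hB : ∀ k, D x α k ≤ B)
    (hA' : ∀ ε > 0, ∃ k, D x α k < A + ε) (hB' : ∀ ε > 0, ∃ k, B - ε < D x α k)
    (ε : ℝ) (hε : 0 < ε) (L₁ : ℕ) :
    ∃ L ≥ L₁, ∀ r, factor x r L = factor x 0 L → |D x α r| < ε := by
  obtain ⟨p, hp⟩ := hA' ε hε
  obtain ⟨p', hp'⟩ := hB' ε hε
  refine ⟨L₁ + p + p', by omega, ?_⟩
  intro r hr
  have h1 := D_add (α := α) (k := p) hr (by omega)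
  have h2 := D_add (α := α) (k := p') hr (by omega)
  have h3 := hA (r + p)
  have h4 := hB (r + p')
  rw [abs_lt]
  constructor <;> linarith

theorem lower {x : ℕ → Fin 2} {α A B : ℝ} (hrec : UniformlyRecurrent x)
    (hA : ∀ k, A ≤ D x α k) (hB : ∀ k, D x α k ≤ B)
    (hA' : ∀ ε > 0, ∃ k, D x α k < A + ε) (hB' : ∀ ε > 0, ∃ k, B - ε < D x α k)
    (c κ ε : ℝ) (hε : 0 < ε) (hκ : ∀ ε > 0, ∃ k, |D x α k - κ| < ε) (hκc : κ < c)
    (hAc : A + 1 ≤ c) : ∃ L p q : ℕ, ∀ r, factor x r L = factor x 0 L →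
      κ - A - ε < ((Fc x α c (r + p + q) - Fc x α c (r + p) : ℤ) : ℝ) - α * q := by
  set δ : ℝ := min (ε / 3) (min ((c - κ) / 3) (1 / 4)) with hδ
  have d1 : δ ≤ ε / 3 := min_le_left _ _
  have d2 : δ ≤ (c - κ) / 3 := (min_le_right _ _).trans (min_le_left _ _)
  have d3 : δ ≤ 1 / 4 := (min_le_right _ _).trans (min_le_right _ _)
  have d0 : 0 < δ := lt_min (by linarith) (lt_min (by linarith) (by norm_num))
  obtain ⟨p, hp⟩ := hA' δ d0
  obtain ⟨q0, hq0⟩ := hκ δ d0
  obtain ⟨L0, hL0, hL0'⟩ := near hA hB hA' hB' δ d0 q0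
  obtain ⟨G, hG⟩ := hrec 0 L0
  obtain ⟨r0, hr0, _, hr0'⟩ := hG p
  have hQ : D x α (r0 + q0) = D x α r0 + D x α q0 := D_add hr0' hL0
  have hr0D := abs_lt.1 (hL0' r0 hr0')
  have hq0D := abs_lt.1 hq0
  refine ⟨L0 + (r0 + q0), p, r0 + q0 - p, ?_⟩
  intro r hr
  have hr1 : factor x r L0 = factor x 0 L0 := by
    rw [factor_congr] at hr ⊢
    intro j hj
    exact hr j (by omega)
  have hrD := abs_lt.1 (hL0' r hr1)
  have e1 : D x α (r + p) = D x α r + D x α p := D_add hr (by omega)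
  have e2 : D x α (r + (r0 + q0)) = D x α r + D x α (r0 + q0) := D_add hr (by omega)
  have e3 : r + p + (r0 + q0 - p) = r + (r0 + q0) := by omega
  rw [e3]
  unfold Fc
  rw [if_neg (by rw [e2, hQ]; push Not; linarith), if_neg (by rw [e1]; push Not; linarith)]
  have e4 : ((r0 + q0 - p : ℕ) : ℝ) = (r0 : ℝ) + q0 - p := by
    rw [Nat.cast_sub (by omega)]; push_cast; ring
  rw [e4]
  unfold D at e1 e2 hQ hr0D hq0D hrD hp
  push_cast at e1 e2 hQ hr0D hq0D hrD hp ⊢
  linarith

theorem upper {x : ℕ → Fin 2} {α A B : ℝ} (hA : ∀ k, A ≤ D x α k) (hB : ∀ k, D x α k ≤ B)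
    (c : ℝ) (hc1 : A + 1 ≤ c) (hc2 : B - 1 ≤ c) (i n : ℕ) :
    ((Fc x α c (i + n) - Fc x α c i : ℤ) : ℝ) - α * n ≤ c - A := by
  have h : ∀ k, A ≤ (Fc x α c k : ℝ) - α * k ∧ (Fc x α c k : ℝ) - α * k ≤ c := by
    intro k
    have h1 := hA k
    have h2 := hB k
    unfold Fc
    by_cases h3 : c < D x α k
    · rw [if_pos h3]
      unfold D at h1 h2 h3
      push_cast
      constructor <;> linarith
    · rw [if_neg h3]
      push Not at h3
      unfold D at h1 h2 h3
      push_cast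
      constructor <;> linarith
  have h1 := (h (i + n)).2
  have h2 := (h i).1
  push_cast at h1 ⊢
  linarith

/-! ### Balanced words -/

theorem floor_form (α : ℝ) (s : ℕ → ℤ) (n : ℕ)
    (hs : ∀ k k' : ℕ, (s k' : ℝ) - s k - ((k' : ℝ) - k) * α < 1) :
    ∃ i₀ ≤ n, ∀ k ≤ n, s k = s i₀ + ⌊((k : ℝ) - i₀) * α⌋ := by
  obtain ⟨i₀, hi, hmax⟩ := (Finset.range (n + 1)).exists_max_image
    (fun k : ℕ => (s k : ℝ) - k * α) ⟨0, by simp⟩
  rw [Finset.mem_range] at hi
  refine ⟨i₀, by omega, ?_⟩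
  intro k hk
  have h1 : (s k : ℝ) - k * α ≤ s i₀ - i₀ * α := hmax k (by rw [Finset.mem_range]; omega)
  have h2 := hs k i₀
  have h3 : ⌊((s i₀ : ℤ) : ℝ) + ((k : ℝ) - i₀) * α⌋ = s k := by
    rw [Int.floor_eq_iff]
    constructor <;> nlinarith
  rw [Int.floor_intCast_add] at h3
  omega

noncomputable def cand (α : ℝ) (n i₀ : ℕ) : List (Fin 2) := (List.range n).map fun j =>
  if ⌊(((j + 1 : ℕ) : ℝ) - i₀) * α⌋ = ⌊((j : ℝ) - i₀) * α⌋ then 0 else 1

theorem factors_finite (x : ℕ → Fin 2) (n : ℕ) : (factors x n).Finite := by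
  have : factors x n ⊆ {l : List (Fin 2) | l.length = n} := by
    rintro v ⟨i, rfl⟩
    exact factor_length _ _ _
  exact (List.finite_length_eq (Fin 2) n).subset this

theorem sturmian_of_balanced {x : ℕ → Fin 2} {α : ℝ} (hap : ¬ EventuallyPeriodic x)
    (hbal : ∀ i j : ℕ, D x α j - D x α i < 1) : Sturmian x := by
  refine ⟨hap, ?_⟩
  have hle : ∀ n, (factors x n).ncard ≤ n + 1 := by
    intro n
    have hsub : factors x n ⊆ ((Finset.range (n + 1)).image (cand α n) : Finset (List (Fin 2))) := by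
      rintro v ⟨i, rfl⟩
      obtain ⟨i₀, hi₀, hform⟩ := floor_form α (fun k => S x (i + k)) n (by
        intro k k'
        have := hbal (i + k) (i + k')
        unfold D at this
        push_cast at this
        linarith)
      rw [Finset.coe_image]
      refine ⟨i₀, by simp; omega, ?_⟩
      unfold cand factor
      apply List.map_congr_left
      intro j hj
      rw [List.mem_range] at hj
      have h1 := hform (j + 1) (by omega)
      have h2 := hform j (by omega)
      have h3 := S_step x (i + j)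
      rw [← add_assoc] at h1
      rw [h3, h2] at h1
      have h4 : (x (i + j)).val = ⌊(((j + 1 : ℕ) : ℝ) - i₀) * α⌋ - ⌊((j : ℝ) - i₀) * α⌋ := by
        linarith
      generalize x (i + j) = a at h4
      fin_cases a
      · rw [if_pos]
        · rfl
        · simp only at h4
          push_cast at h4 ⊢
          omega
      · rw [if_neg]
        · rfl
        · simp only at h4
          push_cast at h4 ⊢
          omega
    refine (Set.ncard_le_ncard hsub (Finset.finite_toSet _)).trans ?_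
    rw [Set.ncard_coe_finset]
    refine Finset.card_image_le.trans ?_
    simp
  have hge : ∀ n, n + 1 ≤ (factors x n).ncard := by
    intro n
    induction n with
    | zero =>
      have : (factors x 0).ncard ≠ 0 := by
        rw [Ne, Set.ncard_eq_zero (factors_finite x 0), ← Ne, ← Set.nonempty_iff_ne_empty]
        exact ⟨_, 0, rfl⟩
      omega
    | succ n ih =>
      by_contra hcon
      apply hap
      apply morse_hedlund x n (factors_finite x n) (factors_finite x (n + 1))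
      have h1 : (factors x (n + 1)).ncard ≤ (factors x n).ncard := by omega
      have h2 := (factors_finite x n).cast_ncard_eq
      have h3 := (factors_finite x (n + 1)).cast_ncard_eq
      change (factors x (n + 1)).encard ≤ (factors x n).encard
      rw [← h2, ← h3]
      exact_mod_cast h1
  intro n
  exact le_antisymm (hle n) (hge n)

theorem D_ne {x : ℕ → Fin 2} {α : ℝ} (hα : Irrational α) {i j : ℕ} (hij : i ≠ j) (z : ℤ) :
    D x α j - D x α i ≠ z := by
  intro h
  unfold D at h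
  have h1 : α * ((j : ℤ) - (i : ℤ) : ℤ) = ((S x j - S x i - z : ℤ) : ℝ) := by
    push_cast
    linarith
  have h2 : ((j : ℤ) - (i : ℤ)) ≠ 0 := by omega
  have h3 := hα.mul_intCast h2
  exact h3 ⟨(S x j - S x i - z : ℤ), by rw [h1]; simp⟩

theorem no_three_countable (F : Set ℝ)
    (h : ∀ a ∈ F, ∀ b ∈ F, ∀ c ∈ F, a < b → b < c → False) : F.Countable := by
  by_contra hcon
  have hinf : F.Infinite := fun hf => hcon hf.countable
  obtain ⟨t, ht, hcard⟩ := hinf.exists_subset_card_eq 3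
  obtain ⟨a, b, c, hab, hac, hbc, rfl⟩ := Finset.card_eq_three.1 hcard
  have ha : a ∈ F := ht (by simp)
  have hb : b ∈ F := ht (by simp)
  have hc : c ∈ F := ht (by simp)
  rcases lt_or_gt_of_ne hab with h1 | h1 <;> rcases lt_or_gt_of_ne hac with h2 | h2 <;>
    rcases lt_or_gt_of_ne hbc with h3 | h3
  · exact h a ha b hb c hc h1 h3
  · exact h a ha c hc b hb h2 h3
  · linarith
  · exact h c hc a ha b hb h2 h1
  · exact h b hb a ha c hc h1 h2
  · linarith
  · exact h b hb c hc a ha h3 h2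
  · exact h c hc b hb a ha h3 h1

theorem bounded_case {x : ℕ → Fin 2} {α : ℝ} (hx : UniformFreq x α) (hα : Irrational α)
    (hrec : UniformlyRecurrent x) (hap : ¬ EventuallyPeriodic x) (hst : ¬ Sturmian x)
    (C : ℝ) (hC : ∀ k : ℕ, |D x α k| ≤ C) :
    ¬ {M | IsMinimalSubshift M ∧ M ⊆ abClosure x}.Countable := by
  intro hcount
  have hbddB : BddAbove (Set.range (D x α)) := ⟨C, by rintro _ ⟨k, rfl⟩; exact (abs_le.1 (hC k)).2⟩
  have hbddA : BddBelow (Set.range (D x α)) := ⟨-C, by rintro _ ⟨k, rfl⟩; exact (abs_le.1 (hC k)).1⟩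
  set A : ℝ := sInf (Set.range (D x α)) with hAdef
  set B : ℝ := sSup (Set.range (D x α)) with hBdef
  have hne : (Set.range (D x α)).Nonempty := ⟨_, 0, rfl⟩
  have hA : ∀ k, A ≤ D x α k := fun k => csInf_le hbddA ⟨k, rfl⟩
  have hB : ∀ k, D x α k ≤ B := fun k => le_csSup hbddB ⟨k, rfl⟩
  have hA' : ∀ ε > 0, ∃ k, D x α k < A + ε := by
    intro ε hε
    obtain ⟨_, ⟨k, rfl⟩, hk⟩ := exists_lt_of_csInf_lt hne (show A < A + ε by linarith)
    exact ⟨k, hk⟩
  have hB' : ∀ ε > 0, ∃ k, B - ε < D x α k := by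
    intro ε hε
    obtain ⟨_, ⟨k, rfl⟩, hk⟩ := exists_lt_of_lt_csSup hne (show B - ε < B by linarith)
    exact ⟨k, hk⟩
  -- `B > A + 1`
  have hBA : A + 1 < B := by
    by_contra hcon
    push Not at hcon
    apply hst
    apply sturmian_of_balanced (α := α) hap
    intro i j
    by_cases hij : i = j
    · subst hij; simp
    · have h1 := hA i
      have h2 := hB j
      have h3 := D_ne (x := x) hα hij 1
      push_cast at h3
      exact lt_of_le_of_ne (by linarith) h3
  set K : Set ℝ := closure (Set.range (D x α)) with hK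
  have hKmem : ∀ κ ∈ K, ∀ ε > 0, ∃ k, |D x α k - κ| < ε := by
    intro κ hκ ε hε
    rw [hK, Metric.mem_closure_range_iff] at hκ
    obtain ⟨k, hk⟩ := hκ ε hε
    refine ⟨k, ?_⟩
    rw [Real.dist_eq, abs_sub_comm] at hk
    exact hk
  have hKmem' : ∀ k, D x α k ∈ K := fun k => subset_closure ⟨k, rfl⟩
  -- `K` is perfect
  have hperf : Perfect K := by
    refine ⟨isClosed_closure, ?_⟩
    rw [preperfect_iff_nhds]
    intro κ hκ U hU
    obtain ⟨ε, hε, hball⟩ := Metric.mem_nhds_iff.1 hU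
    obtain ⟨q, hq⟩ := hKmem κ hκ (ε / 2) (by linarith)
    obtain ⟨L, hL, hL'⟩ := near hA hB hA' hB' (ε / 2) (by linarith) q
    obtain ⟨G, hG⟩ := hrec 0 L
    obtain ⟨r, hr1, _, hr2⟩ := hG 1
    have h1 := D_add (α := α) (k := q) hr2 hL
    have h2 := abs_lt.1 (hL' r hr2)
    have h3 := abs_lt.1 hq
    have h4 : D x α (r + q) ≠ D x α q := by
      have := D_ne (x := x) hα (show q ≠ r + q by omega) 0
      push_cast at this
      intro h; apply this; linarith
    by_cases h5 : D x α q = κ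
    · refine ⟨D x α (r + q), ⟨hball ?_, hKmem' _⟩, fun h => h4 (h.trans h5.symm)⟩
      rw [Metric.mem_ball, Real.dist_eq, abs_lt]
      constructor <;> linarith
    · refine ⟨D x α q, ⟨hball ?_, hKmem' _⟩, h5⟩
      rw [Metric.mem_ball, Real.dist_eq, abs_lt]
      constructor <;> linarith
  set c0 : ℝ := max (B - 1) (A + 1) with hc0
  have hc0B : c0 < B := max_lt (by linarith) hBA
  set c1 : ℝ := (c0 + B) / 2 with hc1
  have hBK : B ∈ K := csSup_mem_closure hne hbddB
  have hP := hperf.closure_nhds_inter (U := Set.Ioi c1) B hBK (show c1 < B by linarith) isOpen_Ioi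
  set P : Set ℝ := closure (Set.Ioi c1 ∩ K) with hPdef
  have hPK : P ⊆ K := by
    have : IsClosed K := isClosed_closure
    exact closure_minimal Set.inter_subset_right this
  have hPc : ∀ c ∈ P, c0 < c := by
    intro c hc
    have h1 : P ⊆ Set.Ici c1 := closure_minimal
      (fun y hy => Set.mem_Ici.2 (Set.mem_Ioi.1 hy.1).le) isClosed_Ici
    have h2 : c1 ≤ c := h1 hc
    linarith
  have hPunc : ¬ P.Countable := by
    intro hcountP
    obtain ⟨f, hf1, _, hf2⟩ := hP.1.exists_nat_bool_injection hP.2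
    have h1 : (Set.range f).Countable := hcountP.mono hf1
    have h2 : (Set.univ : Set (ℕ → Bool)).Countable := by
      apply Set.countable_of_injective_of_countable_image (f := f) hf2.injOn
      rwa [Set.image_univ]
    have h3 : Cardinal.mk (ℕ → Bool) ≤ Cardinal.aleph0 := by
      rw [Cardinal.mk_le_aleph0_iff]
      exact Set.countable_univ_iff.1 h2
    have h4 : Cardinal.mk (ℕ → Bool) = 2 ^ Cardinal.aleph0 := by simp
    rw [h4] at h3
    exact absurd (Cardinal.cantor Cardinal.aleph0) (not_lt.2 h3)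
  have hch : ∀ c : ℝ, ∃ M : Set (ℕ → Fin 2),
      (IsMinimalSubshift M ∧ M ⊆ abClosure x ∧ M ⊆ orbitClosure (wd (Fc x α c))) :=
    fun c => exists_min_good (Fc_good hx c)
  choose Z hZ using hch
  -- three parameters cannot share the same subshift
  have hthree : ∀ a ∈ P, ∀ b ∈ P, ∀ c ∈ P, a < b → b < c → Z a ≠ Z c := by
    intro a ha b hb c hc hab hbc heq
    obtain ⟨y, hy⟩ := (hZ a).1.1
    have hy1 := (hZ a).2.2 hy
    have hy2 := (hZ c).2.2 (heq ▸ hy)
    have ha0 := hPc a ha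
    have hc0' := hPc c hc
    have m1 : B - 1 ≤ c0 := le_max_left _ _
    have m2 : A + 1 ≤ c0 := le_max_right _ _
    obtain ⟨L, p, q, hl⟩ := lower hrec hA hB hA' hB' c b (b - a) (by linarith)
      (hKmem b (hPK hb)) hbc (by linarith)
    obtain ⟨s, hs⟩ := gap_lemma hrec (Fc_good hx c).steps 0 L p q
      (fun w => b - A - (b - a) < (w : ℝ) - α * q) hl hy2
    obtain ⟨N, hN⟩ := window_of_orbit (Fc_good hx a).steps hy1 s q
    rw [hN] at hs
    have := upper hA hB a (by linarith) (by linarith) N q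
    linarith
  apply hPunc
  have hcover : P ⊆ ⋃ M ∈ {M | IsMinimalSubshift M ∧ M ⊆ abClosure x}, {c ∈ P | Z c = M} := by
    intro c hc
    rw [Set.mem_iUnion₂]
    exact ⟨Z c, ⟨(hZ c).1, (hZ c).2.1⟩, hc, rfl⟩
  apply Set.Countable.mono hcover
  apply hcount.biUnion
  intro M _
  apply no_three_countable
  rintro a ⟨ha, ha'⟩ b ⟨hb, _⟩ c ⟨hc, hc'⟩ hab hbc
  exact hthree a ha b hb c hc hab hbc (ha'.trans hc'.symm)

/-- Let `x` be a uniformly recurrent, aperiodic, non-Sturmian binary word with an irrational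
uniform letter frequency. Then the abelian closure of `x` contains uncountably many minimal
subshifts. -/
theorem result (x : ℕ → Fin 2) (α : ℝ) (hrec : UniformlyRecurrent x)
    (hap : ¬ EventuallyPeriodic x) (hst : ¬ Sturmian x) (hfreq : UniformFreq x α)
    (hα : Irrational α) :
    ¬ {M : Set (ℕ → Fin 2) | IsMinimalSubshift M ∧ M ⊆ abClosure x}.Countable := by
  by_cases h1 : ∀ C : ℝ, ∃ i n : ℕ, C < ((S x (i + n) - S x i : ℤ) : ℝ) - α * n
  · exact unbounded_case hfreq hrec (Or.inl h1)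
  by_cases h2 : ∀ C : ℝ, ∃ i n : ℕ, ((S x (i + n) - S x i : ℤ) : ℝ) - α * n < -C
  · exact unbounded_case hfreq hrec (Or.inr h2)
  push Not at h1 h2
  obtain ⟨C1, hC1⟩ := h1
  obtain ⟨C2, hC2⟩ := h2
  apply bounded_case hfreq hα hrec hap hst (max C1 C2)
  intro k
  have a1 := hC1 0 k
  have a2 := hC2 0 k
  rw [zero_add, S_zero, sub_zero] at a1 a2
  have m1 := le_max_left C1 C2
  have m2 := le_max_right C1 C2
  unfold D
  rw [abs_le]
  constructor <;> linarith

end Pool.Agent.Results.MP_fa9958_co.Uncountable
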